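import Pool.Agent.P.MP_440ce3_nt.G.Norm
import Pool.Agent.P.MP_440ce3_nt.A.Red
import Pool.Agent.P.MP_440ce3_nt.A.Mon
import Pool.Agent.P.MP_440ce3_nt.A.L1
import Pool.Agent.P.MP_440ce3_nt.A.Lvi
import Pool.Agent.P.MP_440ce3_nt.A.Lvp
import Pool.Agent.P.MP_440ce3_nt.A.Sqn
import Pool.Agent.P.MP_440ce3_nt.A.Lat
import Pool.Agent.P.MP_440ce3_nt.A.Pid
import Pool.Agent.P.MP_440ce3_nt.A.Za
import Pool.Agent.P.MP_440ce3_nt.A.M2
import Pool.Agent.P.MP_440ce3_nt.A.Uni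
import Pool.Agent.P.MP_440ce3_nt.A.Loc
import Pool.Agent.P.MP_440ce3_nt.A.Evn
import Pool.Agent.P.MP_440ce3_nt.A.Sq
import Pool.Agent.P.MP_440ce3_nt.A.Grp
import Pool.Agent.P.MP_440ce3_nt.A.Ptc
import Pool.Agent.P.MP_440ce3_nt.A.Pt
import Pool.Agent.P.MP_440ce3_nt.G.Pp
import Pool.Agent.P.MP_440ce3_nt.G.Vl
import Pool.Agent.P.MP_440ce3_nt.G.Triv
import Pool.Agent.P.MP_440ce3_nt.G.Gen
import Pool.Agent.P.MP_440ce3_nt.G.Split
import Pool.Agent.P.MP_440ce3_nt.G.Hesse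
import Pool.Agent.P.MP_440ce3_nt.G.D2
import Pool.Agent.P.MP_440ce3_nt.G.Fac
import Pool.Agent.P.MP_440ce3_nt.G.Da
import Pool.Agent.P.MP_440ce3_nt.G.B1n
import Pool.Agent.P.MP_440ce3_nt.G.B1
import Pool.Agent.P.MP_440ce3_nt.G.Bi
import Pool.Agent.P.MP_440ce3_nt.G.Tri
import Pool.Agent.P.MP_440ce3_nt.G.E1n
import Pool.Agent.P.MP_440ce3_nt.G.T2
import Pool.Agent.P.MP_440ce3_nt.G.E2n
import Pool.Agent.P.MP_440ce3_nt.G.T3
import Pool.Agent.P.MP_440ce3_nt.G.Biii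
import Pool.Agent.P.MP_440ce3_nt.G.D3
import Pool.Agent.P.MP_440ce3_nt.G.Main

namespace Pool.Agent.P.MP_440ce3_nt

theorem all_NORM : S_NORM := p_NORM
theorem all_RED : S_RED := p_RED
theorem all_MON : S_MON := p_MON all_RED
theorem all_L1 : S_L1 := p_L1
theorem all_LVI : S_LVI := p_LVI
theorem all_LVP : S_LVP := p_LVP
theorem all_SQN : S_SQN := p_SQN
theorem all_LAT : S_LAT := p_LAT
theorem all_PID : S_PID := p_PID
theorem all_ZA : S_ZA := p_ZA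
theorem all_M2 : S_M2 := p_M2 all_ZA
theorem all_UNI : S_UNI := p_UNI all_M2
theorem all_LOC : S_LOC := p_LOC
theorem all_EVN : S_EVN := p_EVN all_LOC
theorem all_SQ : S_SQ := p_SQ all_PID all_M2 all_UNI all_EVN
theorem all_GRP : S_GRP := p_GRP all_MON all_L1 all_LVI all_LVP all_SQN all_LAT all_SQ
theorem all_PTC : S_PTC := p_PTC all_GRP
theorem all_PT : S_PT := p_PT all_PTC
theorem all_PP : S_PP := p_PP all_PT
theorem all_VL : S_VL := p_VL all_PP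
theorem all_TRIV : S_TRIV := p_TRIV all_PP
theorem all_GEN : S_GEN := p_GEN all_PP
theorem all_SPLIT : S_SPLIT := p_SPLIT
theorem all_HESSE : S_HESSE := p_HESSE
theorem all_D2 : S_D2 := p_D2 all_HESSE
theorem all_FAC : S_FAC := p_FAC
theorem all_DA : S_DA := p_DA all_HESSE
theorem all_B1N : S_B1N := p_B1N
theorem all_B1 : S_B1 := p_B1 all_B1N
theorem all_BI : S_BI := p_BI all_FAC all_B1
theorem all_TRI : S_TRI := p_TRI
theorem all_E1N : S_E1N := p_E1N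
theorem all_T2 : S_T2 := p_T2 all_E1N
theorem all_E2N : S_E2N := p_E2N
theorem all_T3 : S_T3 := p_T3 all_E2N
theorem all_BIII : S_BIII := p_BIII all_FAC all_TRI all_T2 all_T3
theorem all_D3 : S_D3 := p_D3 all_FAC all_DA all_BI all_BIII
theorem all_MAIN : S_MAIN := p_MAIN all_NORM all_VL all_TRIV all_GEN all_SPLIT all_D2 all_D3

end Pool.Agent.P.MP_440ce3_nt
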